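import Pool.Agent.C75W.Im
import Pool.Agent.Helper6.MONO.Stmts

/-!
MP_c75db0_gt, module TL3: norm and displacement.
-/

set_option autoImplicit false
noncomputable section
namespace Pool.Agent.Helper6.MONO

theorem tl3_symm (x y : V3) : hf y x = star (hf x y) := by
  simp only [hf, star_add, star_sub, star_mul', star_star]
  ring

theorem tl3_self_re (v : V3) : (hf v v).re = ‖v 0‖ ^ 2 + ‖v 1‖ ^ 2 - ‖v 2‖ ^ 2 := by
  have h : ∀ z : ℂ, z * star z = ((‖z‖ ^ 2 : ℝ) : ℂ) := by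
    intro z
    rw [Complex.star_def, Complex.mul_conj']
    norm_cast
  simp only [hf, h]
  rw [← Complex.ofReal_add, ← Complex.ofReal_sub, Complex.ofReal_re]

theorem tl3_self (v : V3) : hf v v = (((hf v v).re : ℝ) : ℂ) := by
  rw [tl3_self_re]
  have h : ∀ z : ℂ, z * star z = ((‖z‖ ^ 2 : ℝ) : ℂ) := by
    intro z
    rw [Complex.star_def, Complex.mul_conj']
    norm_cast
  simp only [hf, h]
  push_cast
  ring

/-- the Gram determinant of three vectors is not positive -/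
theorem tl3_gram (x y w : V3) :
    (hf x x).re * (hf y y).re * (hf w w).re + 2 * (hf x y * hf y w * hf w x).re
      - (hf x x).re * ‖hf y w‖ ^ 2 - (hf y y).re * ‖hf x w‖ ^ 2 - (hf w w).re * ‖hf x y‖ ^ 2 ≤ 0 := by
  have hn : ∀ z : ℂ, ((‖z‖ ^ 2 : ℝ) : ℂ) = z * star z := by
    intro z
    rw [Complex.star_def, Complex.mul_conj']
    norm_cast
  have hr : ∀ z : ℂ, ((2 * z.re : ℝ) : ℂ) = z + star z := by
    intro z
    rw [Complex.star_def, Complex.add_conj]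
  have key : (hf x x).re * (hf y y).re * (hf w w).re + 2 * (hf x y * hf y w * hf w x).re
      - (hf x x).re * ‖hf y w‖ ^ 2 - (hf y y).re * ‖hf x w‖ ^ 2 - (hf w w).re * ‖hf x y‖ ^ 2 =
      -‖x 0 * (y 1 * w 2 - y 2 * w 1) - x 1 * (y 0 * w 2 - y 2 * w 0) +
        x 2 * (y 0 * w 1 - y 1 * w 0)‖ ^ 2 := by
    apply Complex.ofReal_injective
    rw [Complex.ofReal_sub, Complex.ofReal_sub, Complex.ofReal_sub, Complex.ofReal_add,
      Complex.ofReal_mul, Complex.ofReal_mul, Complex.ofReal_mul ((hf x x).re),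
      Complex.ofReal_mul ((hf y y).re), Complex.ofReal_mul ((hf w w).re), Complex.ofReal_neg,
      hn, hn, hn, hn, hr, ← tl3_self, ← tl3_self, ← tl3_self]
    simp only [hf, star_add, star_sub, star_mul', star_star]
    ring
  rw [key]
  have := sq_nonneg ‖x 0 * (y 1 * w 2 - y 2 * w 1) - x 1 * (y 0 * w 2 - y 2 * w 0) +
        x 2 * (y 0 * w 1 - y 1 * w 0)‖
  linarith

/-- reversed Cauchy-Schwarz inequality -/
theorem tl3_rcs (y w : V3) (hy : Neg y) : (hf y y).re * (hf w w).re ≤ ‖hf y w‖ ^ 2 := by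
  have hn : ∀ z : ℂ, ((‖z‖ ^ 2 : ℝ) : ℂ) = z * star z := by
    intro z
    rw [Complex.star_def, Complex.mul_conj']
    norm_cast
  have key : ‖hf y w‖ ^ 2 - (hf y y).re * (hf w w).re =
      ‖y 0 * w 2 - y 2 * w 0‖ ^ 2 + ‖y 1 * w 2 - y 2 * w 1‖ ^ 2 - ‖y 0 * w 1 - y 1 * w 0‖ ^ 2 := by
    apply Complex.ofReal_injective
    rw [Complex.ofReal_sub, Complex.ofReal_sub, Complex.ofReal_add, Complex.ofReal_mul,
      hn, hn, hn, hn, ← tl3_self, ← tl3_self]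
    simp only [hf, star_add, star_sub, star_mul', star_star]
    ring
  have hq : ‖y 0‖ ^ 2 + ‖y 1‖ ^ 2 < ‖y 2‖ ^ 2 := by
    have := hy
    unfold Neg at this
    rw [tl3_self_re] at this
    linarith
  have h1 : ‖y 2‖ * ‖y 0 * w 1 - y 1 * w 0‖ ≤
      ‖y 1‖ * ‖y 0 * w 2 - y 2 * w 0‖ + ‖y 0‖ * ‖y 1 * w 2 - y 2 * w 1‖ := by
    rw [← norm_mul, ← norm_mul, ← norm_mul]
    have e : y 2 * (y 0 * w 1 - y 1 * w 0) =
        y 1 * (y 0 * w 2 - y 2 * w 0) - y 0 * (y 1 * w 2 - y 2 * w 1) := by ring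
    rw [e]
    exact norm_sub_le _ _
  set A := ‖y 0 * w 2 - y 2 * w 0‖
  set B := ‖y 1 * w 2 - y 2 * w 1‖
  set M := ‖y 0 * w 1 - y 1 * w 0‖
  have h2 : (‖y 2‖ * M) ^ 2 ≤ (‖y 1‖ * A + ‖y 0‖ * B) ^ 2 :=
    pow_le_pow_left₀ (by positivity) h1 2
  have h3 : (‖y 1‖ * A + ‖y 0‖ * B) ^ 2 ≤ (‖y 0‖ ^ 2 + ‖y 1‖ ^ 2) * (A ^ 2 + B ^ 2) := by
    nlinarith [sq_nonneg (‖y 1‖ * B - ‖y 0‖ * A)]
  have h4 : (‖y 0‖ ^ 2 + ‖y 1‖ ^ 2) * (A ^ 2 + B ^ 2) ≤ ‖y 2‖ ^ 2 * (A ^ 2 + B ^ 2) :=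
    mul_le_mul_of_nonneg_right hq.le (by positivity)
  have h5 : 0 < ‖y 2‖ ^ 2 := lt_of_le_of_lt (by positivity) hq
  have h6 : ‖y 2‖ ^ 2 * M ^ 2 ≤ ‖y 2‖ ^ 2 * (A ^ 2 + B ^ 2) := by
    calc ‖y 2‖ ^ 2 * M ^ 2 = (‖y 2‖ * M) ^ 2 := by ring
      _ ≤ _ := h2.trans (h3.trans h4)
  have h7 := le_of_mul_le_mul_left h6 h5
  linarith

/-- the positive definite form attached to a negative vector, times `N` -/
def tl3_H (N : ℝ) (x w : V3) : ℝ := N * (hf w w).re + 2 * ‖hf w x‖ ^ 2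

theorem tl3_norm_symm (x y : V3) : ‖hf y x‖ = ‖hf x y‖ := by
  rw [tl3_symm x y, norm_star]

theorem tl3_cmp (N c : ℝ) (x y w : V3) (hN : 0 < N) (hx : (hf x x).re = -N) (hy : (hf y y).re = -N)
    (hc : ‖hf x y‖ = c * N) (hc1 : 1 ≤ c) : tl3_H N x w ≤ 5 * c ^ 2 * tl3_H N y w := by
  unfold tl3_H
  have hg := tl3_gram x y w
  have hr := tl3_rcs y w (by unfold Neg; rw [hy]; linarith)
  rw [tl3_norm_symm x w, tl3_norm_symm y w]
  rw [hx, hy, hc] at hg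
  rw [hy] at hr
  have h1 : -(‖hf x y‖ * ‖hf y w‖ * ‖hf x w‖) ≤ (hf x y * hf y w * hf w x).re := by
    have := Complex.abs_re_le_norm (hf x y * hf y w * hf w x)
    rw [norm_mul, norm_mul, tl3_norm_symm x w] at this
    exact (abs_le.1 this).1
  rw [hc] at h1
  set s := ‖hf y w‖
  set r := ‖hf x w‖
  set Q := (hf w w).re
  have hs : 0 ≤ s := norm_nonneg _
  have hr0 : 0 ≤ r := norm_nonneg _
  -- N (r^2 + s^2) - 2 c N s r ≤ Q N^2 (c^2 - 1)
  have h2 : N * (r ^ 2 + s ^ 2 - 2 * c * s * r) ≤ N * (Q * N * (c ^ 2 - 1)) := by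
    nlinarith
  have h3 : r ^ 2 + s ^ 2 - 2 * c * s * r ≤ Q * N * (c ^ 2 - 1) := le_of_mul_le_mul_left h2 hN
  have h4 : (r - c * s) ^ 2 ≤ (c ^ 2 - 1) * (N * Q + s ^ 2) := by nlinarith
  have h5 : r ^ 2 ≤ 2 * (r - c * s) ^ 2 + 2 * c ^ 2 * s ^ 2 := by
    nlinarith [sq_nonneg (r - 2 * c * s)]
  have h6 : 0 ≤ N * Q + s ^ 2 := by linarith
  have h7 : (c ^ 2 - 1) * (N * Q + s ^ 2) ≤ c ^ 2 * (N * Q + s ^ 2) := by nlinarith
  have hH : 0 ≤ N * Q + 2 * s ^ 2 := by nlinarith [sq_nonneg s]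
  have h8 : r ^ 2 ≤ 2 * c ^ 2 * (N * Q + 2 * s ^ 2) := by nlinarith
  have hc2 : 1 ≤ c ^ 2 := by nlinarith
  nlinarith [sq_nonneg s]

/-- the square of the euclidean norm -/
def tl3_E (w : V3) : ℝ := ‖w 0‖ ^ 2 + ‖w 1‖ ^ 2 + ‖w 2‖ ^ 2

theorem tl3_e2 (N : ℝ) (hN : 0 < N) (w : V3) :
    tl3_H N (fun i => if i = 2 then ((Real.sqrt N : ℝ) : ℂ) else 0) w = N * tl3_E w := by
  unfold tl3_H tl3_E
  rw [tl3_self_re]
  have h1 : hf w (fun i => if i = 2 then ((Real.sqrt N : ℝ) : ℂ) else 0) =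
      -(w 2 * ((Real.sqrt N : ℝ) : ℂ)) := by
    unfold hf
    simp
  rw [h1, norm_neg, norm_mul, Complex.norm_real, Real.norm_eq_abs, abs_of_nonneg (Real.sqrt_nonneg _),
    mul_pow, Real.sq_sqrt hN.le]
  ring

theorem tl3_e2q (N : ℝ) (hN : 0 < N) :
    (hf (fun i => if i = 2 then ((Real.sqrt N : ℝ) : ℂ) else 0)
      (fun i => if i = 2 then ((Real.sqrt N : ℝ) : ℂ) else 0)).re = -N := by
  rw [tl3_self_re]
  simp [Real.sq_sqrt hN.le]

theorem tl3_coord (w : V3) (i : Fin 3) : ‖w i‖ ^ 2 ≤ tl3_E w := by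
  unfold tl3_E
  have h0 := sq_nonneg ‖w 0‖
  have h1 := sq_nonneg ‖w 1‖
  have h2 := sq_nonneg ‖w 2‖
  fin_cases i
  · simp only [Fin.zero_eta]; linarith
  · simp only [Fin.mk_one]; linarith
  · simp only [Fin.reduceFinMk]; linarith

theorem tl3_single (i : Fin 3) : tl3_E (Pi.single i 1) = 1 := by
  unfold tl3_E
  fin_cases i <;> simp [Pi.single_apply]

theorem tl3_lin (g : E3) (x : V3) : g x = ∑ i, x i • g (Pi.single i 1) := by
  conv_lhs => rw [pi_eq_sum_univ' x]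
  rw [map_sum]
  refine Finset.sum_congr rfl (fun i _ => ?_)
  rw [map_smul]

theorem st_TL3 : ST_TL3 := by
  intro x hx
  set N : ℝ := -(hf x x).re with hNd
  have hN : 0 < N := by unfold Neg at hx; rw [hNd]; linarith
  have hxN : (hf x x).re = -N := by rw [hNd]; ring
  set e : V3 := fun i => if i = 2 then ((Real.sqrt N : ℝ) : ℂ) else 0 with he
  have heN : (hf e e).re = -N := tl3_e2q N hN
  -- the constant c0
  obtain ⟨c0, hc0, hc01⟩ : ∃ c0 : ℝ, ‖hf e x‖ = c0 * N ∧ 1 ≤ c0 := by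
    refine ⟨‖hf e x‖ / N, by field_simp, ?_⟩
    rw [le_div_iff₀ hN, one_mul]
    have := tl3_rcs e x (by unfold Neg; rw [heN]; linarith)
    rw [heN, hxN] at this
    have h0 : N ^ 2 ≤ ‖hf e x‖ ^ 2 := by nlinarith
    exact le_of_sq_le_sq h0 (norm_nonneg _)
  have hc0' : ‖hf x e‖ = c0 * N := by rw [tl3_norm_symm]; exact hc0
  obtain ⟨C1, hC1d⟩ : ∃ C1 : ℝ, C1 = 36 * c0 ^ 2 := ⟨_, rfl⟩
  obtain ⟨C2, hC2d⟩ : ∃ C2 : ℝ, C2 = 2 / N * (∑ i, ‖x i‖) ^ 2 := ⟨_, rfl⟩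
  have hC1 : 0 < C1 := by rw [hC1d]; positivity
  have hC2 : 0 ≤ C2 := by rw [hC2d]; positivity
  refine ⟨C1 + C2, by linarith, ?_⟩
  intro g hg
  have hgx : (hf (g x) (g x)).re = -N := by rw [hg, hxN]
  obtain ⟨c, hc, hc1⟩ : ∃ c : ℝ, ‖hf x (g x)‖ = c * N ∧ 1 ≤ c := by
    refine ⟨‖hf x (g x)‖ / N, by field_simp, ?_⟩
    rw [le_div_iff₀ hN, one_mul]
    have := tl3_rcs x (g x) hx
    rw [hgx, hxN] at this
    have h0 : N ^ 2 ≤ ‖hf x (g x)‖ ^ 2 := by nlinarith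
    exact le_of_sq_le_sq h0 (norm_nonneg _)
  -- the exponential
  have hexp : Real.exp (hd x (g x) / 2) = c + Real.sqrt (c ^ 2 - 1) := by
    unfold hd
    rw [hxN, hgx, hc]
    have e1 : -N * -N = N ^ 2 := by ring
    rw [e1, Real.sqrt_sq hN.le, mul_div_cancel_right₀ _ hN.ne', mul_div_cancel_left₀ _ two_ne_zero,
      Real.exp_arcosh hc1]
  have hlow : c ≤ Real.exp (hd x (g x) / 2) := by
    rw [hexp]
    have := Real.sqrt_nonneg (c ^ 2 - 1)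
    linarith
  have hup : Real.exp (hd x (g x) / 2) ≤ 2 * c := by
    rw [hexp]
    have : Real.sqrt (c ^ 2 - 1) ≤ c := by
      apply Real.sqrt_le_iff.2
      constructor <;> nlinarith
    linarith
  have hnn : 0 ≤ nrm g := by
    unfold nrm
    exact Finset.sum_nonneg (fun i _ => norm_nonneg _)
  constructor
  · -- upper bound for the norm
    have hv : ∀ v : V3, tl3_E (g v) ≤ 125 * c0 ^ 4 * c ^ 2 * tl3_E v := by
      intro v
      have s1 : tl3_H N e (g v) ≤ 5 * c0 ^ 2 * tl3_H N x (g v) :=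
        tl3_cmp N c0 e x (g v) hN heN hxN hc0 hc01
      have s2 : tl3_H N x (g v) ≤ 5 * c ^ 2 * tl3_H N (g x) (g v) :=
        tl3_cmp N c x (g x) (g v) hN hxN hgx hc hc1
      have s3 : tl3_H N (g x) (g v) = tl3_H N x v := by
        unfold tl3_H
        rw [hg, hg]
      have s4 : tl3_H N x v ≤ 5 * c0 ^ 2 * tl3_H N e v :=
        tl3_cmp N c0 x e v hN hxN heN hc0' hc01
      rw [tl3_e2 N hN] at s1 s4
      rw [s3] at s2
      have t1 : N * tl3_E (g v) ≤ 5 * c0 ^ 2 * (5 * c ^ 2 * (5 * c0 ^ 2 * (N * tl3_E v))) := by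
        refine s1.trans (mul_le_mul_of_nonneg_left (s2.trans (mul_le_mul_of_nonneg_left s4 ?_)) ?_)
        · positivity
        · positivity
      have t2 : N * tl3_E (g v) ≤ N * (125 * c0 ^ 4 * c ^ 2 * tl3_E v) := by
        calc _ ≤ _ := t1
          _ = _ := by ring
      exact le_of_mul_le_mul_left t2 hN
    have hb : ∀ i, ‖g (Pi.single i 1)‖ ≤ 12 * c0 ^ 2 * c := by
      intro i
      have h0 : (0 : ℝ) ≤ 12 * c0 ^ 2 * c := by positivity
      rw [pi_norm_le_iff_of_nonneg h0]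
      intro j
      have h1 := (tl3_coord (g (Pi.single i 1)) j).trans (hv (Pi.single i 1))
      rw [tl3_single, mul_one] at h1
      apply le_of_sq_le_sq _ h0
      refine h1.trans ?_
      have : (12 * c0 ^ 2 * c) ^ 2 = 144 * c0 ^ 4 * c ^ 2 := by ring
      rw [this]
      have hp : 0 ≤ c0 ^ 4 * c ^ 2 := by positivity
      nlinarith
    have h1 : nrm g ≤ 3 * (12 * c0 ^ 2 * c) := by
      unfold nrm
      calc ∑ i, ‖g (Pi.single i 1)‖ ≤ ∑ _i : Fin 3, 12 * c0 ^ 2 * c :=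
            Finset.sum_le_sum (fun i _ => hb i)
        _ = 3 * (12 * c0 ^ 2 * c) := by simp
    have hE : 0 < Real.exp (hd x (g x) / 2) := Real.exp_pos _
    calc nrm g ≤ C1 * c := by rw [hC1d]; linarith
      _ ≤ C1 * Real.exp (hd x (g x) / 2) := mul_le_mul_of_nonneg_left hlow hC1.le
      _ ≤ (C1 + C2) * Real.exp (hd x (g x) / 2) :=
          mul_le_mul_of_nonneg_right (by linarith) hE.le
  · -- lower bound
    have h1 : ∀ j, ‖(g x) j‖ ≤ (∑ i, ‖x i‖) * nrm g := by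
      intro j
      rw [tl3_lin g x]
      rw [Finset.sum_apply]
      refine (norm_sum_le _ _).trans ?_
      rw [Finset.sum_mul]
      refine Finset.sum_le_sum (fun i _ => ?_)
      rw [Pi.smul_apply, norm_smul]
      refine mul_le_mul_of_nonneg_left ?_ (norm_nonneg _)
      refine (norm_le_pi_norm (g (Pi.single i 1)) j).trans ?_
      unfold nrm
      exact Finset.single_le_sum (f := fun i => ‖g (Pi.single i 1)‖)
        (fun i _ => norm_nonneg _) (Finset.mem_univ i)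
    have h2 : ‖hf x (g x)‖ ≤ (∑ i, ‖x i‖) ^ 2 * nrm g := by
      have e1 : ‖hf x (g x)‖ ≤ ‖x 0‖ * ‖(g x) 0‖ + ‖x 1‖ * ‖(g x) 1‖ + ‖x 2‖ * ‖(g x) 2‖ := by
        unfold hf
        refine (norm_sub_le _ _).trans (add_le_add ((norm_add_le _ _).trans ?_) ?_)
        · rw [norm_mul, norm_mul, norm_star, norm_star]
        · rw [norm_mul, norm_star]
      have e2 : ‖x 0‖ * ‖(g x) 0‖ + ‖x 1‖ * ‖(g x) 1‖ + ‖x 2‖ * ‖(g x) 2‖ ≤
          ‖x 0‖ * ((∑ i, ‖x i‖) * nrm g) + ‖x 1‖ * ((∑ i, ‖x i‖) * nrm g) +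
            ‖x 2‖ * ((∑ i, ‖x i‖) * nrm g) :=
        add_le_add (add_le_add (mul_le_mul_of_nonneg_left (h1 0) (norm_nonneg _))
          (mul_le_mul_of_nonneg_left (h1 1) (norm_nonneg _)))
          (mul_le_mul_of_nonneg_left (h1 2) (norm_nonneg _))
      refine e1.trans (e2.trans (le_of_eq ?_))
      rw [Fin.sum_univ_three]
      ring
    have h3 : 2 * c ≤ C2 * nrm g := by
      have : c = ‖hf x (g x)‖ / N := by rw [hc, mul_div_cancel_right₀ _ hN.ne']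
      rw [this, hC2d]
      calc 2 * (‖hf x (g x)‖ / N) ≤ 2 * (((∑ i, ‖x i‖) ^ 2 * nrm g) / N) := by gcongr
        _ = 2 / N * (∑ i, ‖x i‖) ^ 2 * nrm g := by ring
    calc Real.exp (hd x (g x) / 2) ≤ C2 * nrm g := hup.trans h3
      _ ≤ (C1 + C2) * nrm g := mul_le_mul_of_nonneg_right (by linarith) hnn

end Pool.Agent.Helper6.MONO
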